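import Pool.Agent.Helper40.PR.Defs2
import Pool.Agent.Helper65.PR.TK4A

/-!
# Maps of the standard form preserve the spectral radius of products (the easy direction)
-/

namespace PR

open ContinuousLinearMap

section

variable {X : Type*} [NormedAddCommGroup X] [NormedSpace ℂ X] [CompleteSpace X]
variable {Y : Type*} [NormedAddCommGroup Y] [NormedSpace ℂ Y] [CompleteSpace Y]

/-- additive maps that are multiplicative or anti-multiplicative and preserve the spectral radius -/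
structure SRHom (θ : (X →L[ℂ] X) → (Y →L[ℂ] Y)) : Prop where
  add : ∀ T S, θ (T + S) = θ T + θ S
  sub : ∀ T S, θ (T - S) = θ T - θ S
  mul : (∀ T S, θ (T * S) = θ T * θ S) ∨ (∀ T S, θ (T * S) = θ S * θ T)
  sr : ∀ T, sr (θ T) = sr T

theorem srHom_of_formI {c h : (X →L[ℂ] X) → ℂ} {φ : (X →L[ℂ] X) → (Y →L[ℂ] Y)}
    (hF : FormI c h φ) :
    ∃ θ : (X →L[ℂ] X) → (Y →L[ℂ] Y), SRHom θ ∧ ∀ T, φ T = c T • θ T + h T • (1 : Y →L[ℂ] Y) := by
  rcases hF with ⟨A, hA⟩ | ⟨A, hA⟩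
  · refine ⟨fun T => (A : X →L[ℂ] Y).comp (T.comp (A.symm : Y →L[ℂ] X)), ⟨?_, ?_, ?_, ?_⟩, ?_⟩
    · intro T S; ext y; simp
    · intro T S; ext y; simp
    · left; intro T S; ext y; simp
    · intro T
      exact sr_conj A T _ fun x => by simp
    · intro T; ext y; simp [hA]
  · refine ⟨fun T => (A : X →SL[starRingEnd ℂ] Y).comp
      (T.comp (A.symm : Y →SL[starRingEnd ℂ] X)), ⟨?_, ?_, ?_, ?_⟩, ?_⟩
    · intro T S; ext y; simp
    · intro T S; ext y; simp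
    · left; intro T S; ext y; simp
    · intro T
      exact sr_conj_star A T _ fun x => by simp
    · intro T; ext y; simp [hA]

theorem dmap_apply' (T : X →L[ℂ] X) (f : X →L[ℂ] ℂ) : dmap T f = f.comp T := rfl

theorem srHom_of_formII {c h : (X →L[ℂ] X) → ℂ} {φ : (X →L[ℂ] X) → (Y →L[ℂ] Y)}
    (hF : FormII c h φ) :
    ∃ θ : (X →L[ℂ] X) → (Y →L[ℂ] Y), SRHom θ ∧ ∀ T, φ T = c T • θ T + h T • (1 : Y →L[ℂ] Y) := by
  have hsr : ∀ T : X →L[ℂ] X, sr (dmap T) = sr T := fun T => sr_dual T _ fun f => rfl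
  rcases hF.2 with ⟨A, hA⟩ | ⟨A, hA⟩
  · refine ⟨fun T => (A : (X →L[ℂ] ℂ) →L[ℂ] Y).comp
      ((dmap T).comp (A.symm : Y →L[ℂ] (X →L[ℂ] ℂ))), ⟨?_, ?_, ?_, ?_⟩, ?_⟩
    · intro T S; ext y
      simp only [comp_apply, ContinuousLinearEquiv.coe_coe, dmap_apply', add_apply, ← map_add]
      congr 1
      ext x; simp
    · intro T S; ext y
      simp only [comp_apply, ContinuousLinearEquiv.coe_coe, dmap_apply', sub_apply, ← map_sub]
      congr 1
      ext x; simp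
    · right; intro T S; ext y
      simp only [comp_apply, ContinuousLinearEquiv.coe_coe, dmap_apply', mul_apply_eq_comp,
        ContinuousLinearEquiv.symm_apply_apply]
      rfl
    · intro T
      rw [← hsr T]
      exact sr_conj A (dmap T) _ fun x => by simp
    · intro T; ext y
      simp [hA, dmap_apply']
  · refine ⟨fun T => (A : (X →L[ℂ] ℂ) →SL[starRingEnd ℂ] Y).comp
      ((dmap T).comp (A.symm : Y →SL[starRingEnd ℂ] (X →L[ℂ] ℂ))), ⟨?_, ?_, ?_, ?_⟩, ?_⟩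
    · intro T S; ext y
      simp only [comp_apply, ContinuousLinearEquiv.coe_coe, dmap_apply', add_apply, ← map_add]
      congr 1
      ext x; simp
    · intro T S; ext y
      simp only [comp_apply, ContinuousLinearEquiv.coe_coe, dmap_apply', sub_apply, ← map_sub]
      congr 1
      ext x; simp
    · right; intro T S; ext y
      simp only [comp_apply, ContinuousLinearEquiv.coe_coe, dmap_apply', mul_apply_eq_comp,
        ContinuousLinearEquiv.symm_apply_apply]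
      rfl
    · intro T
      rw [← hsr T]
      exact sr_conj_star A (dmap T) _ fun x => by simp
    · intro T; ext y
      simp [hA, dmap_apply']

theorem srHom_of_form {c h : (X →L[ℂ] X) → ℂ} {φ : (X →L[ℂ] X) → (Y →L[ℂ] Y)}
    (hF : FormI c h φ ∨ FormII c h φ) :
    ∃ θ : (X →L[ℂ] X) → (Y →L[ℂ] Y), SRHom θ ∧ ∀ T, φ T = c T • θ T + h T • (1 : Y →L[ℂ] Y) :=
  hF.elim srHom_of_formI srHom_of_formII

theorem sr_unimod {c : ℂ} (hc : ‖c‖ = 1) (T : Y →L[ℂ] Y) : sr (c • T) = sr T := by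
  rw [sr_smul, hc, one_mul]

/-- (a) -/
theorem conv_a {c : (X →L[ℂ] X) → ℂ} {φ : (X →L[ℂ] X) → (Y →L[ℂ] Y)} (hc : ∀ T, ‖c T‖ = 1)
    (hF : FormI c (fun _ => 0) φ ∨ FormII c (fun _ => 0) φ) (T S : X →L[ℂ] X) :
    sr (φ T * φ S) = sr (T * S) := by
  obtain ⟨θ, hθ, hφ⟩ := srHom_of_form hF
  simp only [zero_smul, add_zero] at hφ
  rw [hφ, hφ, smul_mul_smul_comm, sr_unimod (by rw [norm_mul, hc, hc, one_mul])]
  rcases hθ.mul with hm | hm
  · rw [← hm, hθ.sr]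
  · rw [← hm, hθ.sr, sr_comm]

/-- (b) -/
theorem conv_b {c : (X →L[ℂ] X) → ℂ} {φ : (X →L[ℂ] X) → (Y →L[ℂ] Y)} (hc : ∀ T, ‖c T‖ = 1)
    (hF : FormI c (fun _ => 0) φ ∨ FormII c (fun _ => 0) φ) (T S : X →L[ℂ] X) :
    sr (φ T * φ S * φ T) = sr (T * S * T) := by
  obtain ⟨θ, hθ, hφ⟩ := srHom_of_form hF
  simp only [zero_smul, add_zero] at hφ
  rw [hφ, hφ, smul_mul_smul_comm, smul_mul_smul_comm,
    sr_unimod (by rw [norm_mul, norm_mul, hc, hc, one_mul, one_mul])]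
  rcases hθ.mul with hm | hm
  · rw [← hm, ← hm, hθ.sr]
  · rw [← hm, ← hm, hθ.sr, mul_assoc]

/-- (c) -/
theorem conv_c {c : (X →L[ℂ] X) → ℂ} {φ : (X →L[ℂ] X) → (Y →L[ℂ] Y)} (hc : ∀ T, ‖c T‖ = 1)
    (hF : FormI c (fun _ => 0) φ ∨ FormII c (fun _ => 0) φ) (T S : X →L[ℂ] X) :
    sr (φ T * φ S + φ S * φ T) = sr (T * S + S * T) := by
  obtain ⟨θ, hθ, hφ⟩ := srHom_of_form hF
  simp only [zero_smul, add_zero] at hφ
  rw [hφ, hφ, smul_mul_smul_comm, smul_mul_smul_comm, mul_comm (c S) (c T), ← smul_add,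
    sr_unimod (by rw [norm_mul, hc, hc, one_mul])]
  rcases hθ.mul with hm | hm
  · rw [← hm, ← hm, ← hθ.add, hθ.sr]
  · rw [← hm, ← hm, ← hθ.add, hθ.sr, add_comm]

/-- (d) -/
theorem conv_d {c h : (X →L[ℂ] X) → ℂ} {φ : (X →L[ℂ] X) → (Y →L[ℂ] Y)} (hc : ∀ T, ‖c T‖ = 1)
    (hF : FormI c h φ ∨ FormII c h φ) (T S : X →L[ℂ] X) :
    sr (φ T * φ S - φ S * φ T) = sr (T * S - S * T) := by
  obtain ⟨θ, hθ, hφ⟩ := srHom_of_form hF
  have e : φ T * φ S - φ S * φ T = (c T * c S) • (θ T * θ S - θ S * θ T) := by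
    rw [hφ, hφ]
    ext y
    simp only [sub_apply, mul_apply_eq_comp, add_apply, smul_apply, one_apply_eq_self, map_add,
      map_smul, smul_add, smul_sub, smul_smul]
    rw [mul_comm (c S) (c T), mul_comm (c S) (h T), mul_comm (c T) (h S), mul_comm (h S) (h T)]
    abel
  rw [e, sr_unimod (by rw [norm_mul, hc, hc, one_mul])]
  rcases hθ.mul with hm | hm
  · rw [← hm, ← hm, ← hθ.sub, hθ.sr]
  · rw [← hm, ← hm, ← hθ.sub, hθ.sr, ← sr_neg, neg_sub]

end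

end PR
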