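import Mathlib

/-!
# Maps preserving the spectral radius of operator products: basic definitions

`rk x f` is the rank one operator `z ↦ f z • x`; `sr T` is the spectral radius as a real number;
`Rt τ δ` is the larger absolute value of the two roots of `z² - τ z + δ`.
-/

namespace PR

open ContinuousLinearMap

section basic

variable {X : Type*} [NormedAddCommGroup X] [NormedSpace ℂ X]

/-- The rank one operator `z ↦ f z • x`. -/
noncomputable def rk (x : X) (f : X →L[ℂ] ℂ) : X →L[ℂ] X := f.smulRight x

@[simp] lemma rk_apply (x : X) (f : X →L[ℂ] ℂ) (z : X) : rk x f z = f z • x := rfl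

/-- The spectral radius as a real number. -/
noncomputable def sr (T : X →L[ℂ] X) : ℝ := (spectralRadius ℂ T).toReal

end basic

/-- The larger modulus of the two roots of `z ^ 2 - τ z + δ`. -/
noncomputable def Rt (τ δ : ℂ) : ℝ :=
  max ‖(τ + (τ ^ 2 - 4 * δ) ^ ((1 : ℂ) / 2)) / 2‖ ‖(τ - (τ ^ 2 - 4 * δ) ^ ((1 : ℂ) / 2)) / 2‖

end PR
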