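import Pool.Agent.Helper40.PR.Defs

/-!
# Maps preserving the spectral radius of operator products: more definitions
-/

namespace PR

open ContinuousLinearMap


section defs

/-- dimension at least two -/
def Dim2 (X : Type*) [AddCommGroup X] [Module ℂ X] : Prop := ∃ v : Fin 2 → X, LinearIndependent ℂ v

/-- dimension at least three -/
def Dim3 (X : Type*) [AddCommGroup X] [Module ℂ X] : Prop := ∃ v : Fin 3 → X, LinearIndependent ℂ v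

variable {X : Type*} [NormedAddCommGroup X] [NormedSpace ℂ X]
variable {Y : Type*} [NormedAddCommGroup Y] [NormedSpace ℂ Y]

/-- `TS + σ ST` -/
noncomputable def bra (σ : ℂ) (T S : X →L[ℂ] X) : X →L[ℂ] X := T * S + σ • (S * T)

/-- the three families of numbers form a linear family -/
def PhaseFam (u w : ℂ) (c : ℂ → ℂ) : Prop :=
  ∃ a b : ℂ, ‖u‖ = ‖a‖ ∧ ‖w‖ = ‖b‖ ∧ ∀ s, ‖c s‖ = ‖a + s * b‖

/-- the same for nonnegative reals (spectral radii) -/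
def PhaseFamR (u w : ℝ) (c : ℂ → ℝ) : Prop :=
  ∃ a b : ℂ, u = ‖a‖ ∧ w = ‖b‖ ∧ ∀ s, c s = ‖a + s * b‖

/-- linear pairs for the products `TS` (`n = 1`) and `STS` (`n = 2`) -/
def LPab (n : ℕ) (A B : X →L[ℂ] X) : Prop :=
  ∃ C : ℂ → (X →L[ℂ] X),
    (∀ S, PhaseFamR (sr (A * S ^ n)) (sr (B * S ^ n)) (fun s => sr (C s * S ^ n))) ∧
    (∃ S, sr (A * S ^ n) = 0 ∧ sr (B * S ^ n) ≠ 0) ∧
    (∃ S, sr (B * S ^ n) = 0 ∧ sr (A * S ^ n) ≠ 0)

/-- linear pairs for the products `TS + ST` (`σ = 1`) and `TS - ST` (`σ = -1`) -/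
def LPcd (σ : ℂ) (A B : X →L[ℂ] X) : Prop :=
  ∃ C : ℂ → (X →L[ℂ] X),
    (∀ S, PhaseFamR (sr (bra σ A S)) (sr (bra σ B S)) (fun s => sr (bra σ (C s) S))) ∧
    (∃ S, sr (bra σ A S) = 0 ∧ sr (bra σ B S) ≠ 0) ∧
    (∃ S, sr (bra σ B S) = 0 ∧ sr (bra σ A S) ≠ 0) ∧
    (σ = 1 → sr A = 0 ∧ sr B = 0 ∧ ∀ s, sr (C s) = 0)

/-- the second order identities, see `quad_lin` -/
def Id2 (A B : X →L[ℂ] X) : Prop :=
  ∀ (y1 y2 : X) (g1 g2 : X →L[ℂ] ℂ), LinearIndependent ℂ ![y1, y2] →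
    (g1 (B y1) + g2 (B y2)) *
        (g1 (A y1) * g2 (B y2) + g1 (B y1) * g2 (A y2) - g1 (A y2) * g2 (B y1) - g1 (B y2) * g2 (A y1)) =
      2 * (g1 (A y1) + g2 (A y2)) * (g1 (B y1) * g2 (B y2) - g1 (B y2) * g2 (B y1)) ∧
    (g1 (A y1) + g2 (A y2)) *
        (g1 (A y1) * g2 (B y2) + g1 (B y1) * g2 (A y2) - g1 (A y2) * g2 (B y1) - g1 (B y2) * g2 (A y1)) =
      2 * (g1 (B y1) + g2 (B y2)) * (g1 (A y1) * g2 (A y2) - g1 (A y2) * g2 (A y1))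

/-- the Banach adjoint acting on the dual space -/
noncomputable def dmap (T : X →L[ℂ] X) : (X →L[ℂ] ℂ) →L[ℂ] (X →L[ℂ] ℂ) :=
  (ContinuousLinearMap.compL ℂ X X ℂ).flip T

/-- reflexivity -/
def Refl (X : Type*) [NormedAddCommGroup X] [NormedSpace ℂ X] : Prop :=
  ∀ F : (X →L[ℂ] ℂ) →L[ℂ] ℂ, ∃ x : X, ∀ f, F f = f x

/-- `φ T = c T • A T A⁻¹ + h T • 1` with `A` linear or conjugate linear -/
def FormI (c h : (X →L[ℂ] X) → ℂ) (φ : (X →L[ℂ] X) → (Y →L[ℂ] Y)) : Prop :=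
  (∃ A : X ≃L[ℂ] Y, ∀ T y, φ T y = c T • A (T (A.symm y)) + h T • y) ∨
  (∃ A : X ≃SL[starRingEnd ℂ] Y, ∀ T y, φ T y = c T • A (T (A.symm y)) + h T • y)

/-- `φ T = c T • A T' A⁻¹ + h T • 1` with `T'` the Banach adjoint, `A` linear or conjugate linear
from the dual of `X` onto `Y` and `X` reflexive -/
def FormII (c h : (X →L[ℂ] X) → ℂ) (φ : (X →L[ℂ] X) → (Y →L[ℂ] Y)) : Prop :=
  Refl X ∧
  ((∃ A : (X →L[ℂ] ℂ) ≃L[ℂ] Y, ∀ T y, φ T y = c T • A ((A.symm y).comp T) + h T • y) ∨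
   (∃ A : (X →L[ℂ] ℂ) ≃SL[starRingEnd ℂ] Y, ∀ T y, φ T y = c T • A ((A.symm y).comp T) + h T • y))


/-- the first order identity (rank one test operators) -/
def Id1 (A B : X →L[ℂ] X) : Prop :=
  ∀ (y : X) (g : X →L[ℂ] ℂ),
    (2 * g (A y) * g (B y) - g y * (g (A (B y)) + g (B (A y)))) ^ 2 =
      4 * (g (A y) ^ 2 - g y * g (A (A y))) * (g (B y) ^ 2 - g y * g (B (B y)))

end defs


/-- a pairing of two vector spaces for which finite interpolation is possible on both sides -/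
structure GoodPair {V W : Type*} [AddCommGroup V] [Module ℂ V] [AddCommGroup W] [Module ℂ W]
    (B : V →ₗ[ℂ] W →ₗ[ℂ] ℂ) : Prop where
  left : ∀ (n : ℕ) (v : Fin n → V), LinearIndependent ℂ v → ∀ c : Fin n → ℂ, ∃ w, ∀ i, B (v i) w = c i
  right : ∀ (n : ℕ) (w : Fin n → W), LinearIndependent ℂ w → ∀ c : Fin n → ℂ, ∃ v, ∀ i, B v (w i) = c i

/-- a map which is linear or conjugate linear -/
def LinOrConj {V W : Type*} [AddCommGroup V] [Module ℂ V] [AddCommGroup W] [Module ℂ W]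
    (A : V → W) : Prop :=
  (∃ L : V →ₗ[ℂ] W, ∀ v, A v = L v) ∨ (∃ L : V →ₛₗ[starRingEnd ℂ] W, ∀ v, A v = L v)

end PR
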