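import Pool.Agent.Helper40.PR.Defs2

/-!
# Maps preserving the spectral radius of the skew Lie product: definitions
-/

namespace PR

open ContinuousLinearMap InnerProductSpace

open scoped ComplexConjugate

section

variable {H : Type*} [NormedAddCommGroup H] [InnerProductSpace ℂ H] [CompleteSpace H]
variable {K : Type*} [NormedAddCommGroup K] [InnerProductSpace ℂ K] [CompleteSpace K]

/-- The rank one operator `z ↦ ⟪y, z⟫ x`. -/
noncomputable def po (x y : H) : H →L[ℂ] H := rk x (innerSL ℂ y)

@[simp] lemma po_apply (x y z : H) : po x y z = inner ℂ y z • x := rfl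

/-- The skew Lie product `T S - S T*`. -/
noncomputable def skb (T S : H →L[ℂ] H) : H →L[ℂ] H := T * S - S * adjoint T

/-- `φ` is surjective and preserves the spectral radius of the skew Lie product. -/
structure PresE (φ : (H →L[ℂ] H) → (K →L[ℂ] K)) : Prop where
  surj : Function.Surjective φ
  pres : ∀ T S, sr (skb (φ T) (φ S)) = sr (skb T S)

/-- `T` is a real scalar operator. -/
def RealScalar (T : H →L[ℂ] H) : Prop := ∃ t : ℝ, T = (t : ℂ) • (1 : H →L[ℂ] H)

/-- `T` is a scalar operator. -/
def IsScal (T : H →L[ℂ] H) : Prop := ∃ z : ℂ, T = z • (1 : H →L[ℂ] H)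

/-- Normal operators `T` such that `1`, `T + T*`, `T* T` are linearly dependent over the reals, i.e. `Re T` is
scalar or `T = t + c V` with `t, c` real and `V` unitary. -/
def Special (T : H →L[ℂ] H) : Prop :=
  T * adjoint T = adjoint T * T ∧ ∃ a b c : ℝ, (a, b, c) ≠ (0, 0, 0) ∧
    (a : ℂ) • (1 : H →L[ℂ] H) + (b : ℂ) • (T + adjoint T) + (c : ℂ) • (adjoint T * T) = 0

/-- Normalised preservers: the projections of rank one and their multiples by `i` are fixed up to sign. -/
structure NormE (φ : (H →L[ℂ] H) → (H →L[ℂ] H)) : Prop extends PresE φ where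
  hP : ∀ x : H, ‖x‖ = 1 → φ (po x x) = po x x ∨ φ (po x x) = -po x x
  hiP : ∀ x : H, ‖x‖ = 1 → φ (Complex.I • po x x) = Complex.I • po x x ∨
    φ (Complex.I • po x x) = -(Complex.I • po x x)

end

end PR
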