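import Pool.Agent.Helper54.PR.E9A
import Pool.Agent.Helper43.PR.E10A
import Pool.Agent.Helper24.PR.E10B
import Pool.Agent.Helper60.PR.E10C
import Pool.Agent.Helper76.PR.E11C
import Pool.Agent.Helper2.PR.E11D
import Pool.Agent.Helper44.PR.E6F
import Pool.Agent.Helper59.PR.E6W
import Pool.Agent.Helper8.PR.E4
import Pool.Agent.Helper65.PR.CD15
import Pool.Agent.Helper59.PR.AB10

/-!
# E12: the form of the preservers of the skew Lie product
-/

namespace PR

open ContinuousLinearMap InnerProductSpace Complex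

open scoped ComplexConjugate

section

variable {H : Type*} [NormedAddCommGroup H] [InnerProductSpace ℂ H] [CompleteSpace H]
variable {K : Type*} [NormedAddCommGroup K] [InnerProductSpace ℂ K] [CompleteSpace K]

theorem main_e_norm (hH : Dim2 H) {φ : (H →L[ℂ] H) → (H →L[ℂ] H)} (hφ : NormE φ) (T : H →L[ℂ] H) :
    (φ T = T ∨ φ T = -T) ∨ (Special T ∧ (φ T = adjoint T ∨ φ T = -adjoint T)) := by
  have hfirst := fun S => e_first hH hφ T S
  -- the final step
  have fin : T * adjoint T = adjoint T * T → (φ T = adjoint T ∨ φ T = -adjoint T) →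
      (φ T = T ∨ φ T = -T) ∨ (Special T ∧ (φ T = adjoint T ∨ φ T = -adjoint T)) := by
    intro hn h
    have htest : ∀ S, sr (skb (adjoint T) S) = sr (skb T S) := by
      intro S
      rw [← hfirst S]
      rcases h with h | h
      · rw [h]
      · rw [h, e_neg_left]
    rcases special_of_test hn htest with h1 | h1
    · left
      rwa [h1] at h
    · exact Or.inr ⟨h1, h⟩
  obtain ⟨η, hη, h | h⟩ := e_second hH hφ T
  · have h1 : ∀ S, sr (skb (η • T) S) = sr (skb T S) := fun S => by rw [← h, hfirst]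
    rcases first_slot_same hη h1 with h2 | h2 | h2 | h2
    · left; left; rw [h, h2]
    · left; right; rw [h, h2]
    · refine fin ?_ (Or.inl (by rw [h, h2]))
      rw [← h2, smul_mul_assoc, mul_smul_comm]
    · have h3 : adjoint T = -(η • T) := by rw [h2, neg_neg]
      refine fin ?_ (Or.inr (by rw [h, h2]))
      rw [h3, mul_neg, neg_mul, smul_mul_assoc, mul_smul_comm]
  · have h1 : ∀ S, sr (skb (η • adjoint T) S) = sr (skb T S) := fun S => by rw [← h, hfirst]
    have hn : T * adjoint T = adjoint T * T := by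
      by_cases h3 : Dim3 H
      · exact normal_of_first h3 hη h1
      · exact normal_of_first_two h3 hη h1
    rcases first_slot_normal hn hη h1 with h2 | h2 | h2 | h2
    · left; left; rw [h, h2]
    · left; right; rw [h, h2]
    · exact fin hn (Or.inl (by rw [h, h2]))
    · exact fin hn (Or.inr (by rw [h, h2]))

/-- The general step: transport by a map `θ` that undoes the Wigner isometry. -/
theorem norm_of_theta {φ : (H →L[ℂ] H) → (K →L[ℂ] K)} (hφ : PresE φ)
    (θ : (K →L[ℂ] K) → (H →L[ℂ] H)) (hsurj : Function.Surjective θ)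
    (hθ : ∀ A B, sr (skb (θ A) (θ B)) = sr (skb A B))
    (hneg : ∀ A, θ (-A) = -θ A) {U : H → K}
    (h1 : ∀ x, ‖x‖ = 1 → θ (po (U x) (U x)) = po x x)
    (h2 : ∀ x, ‖x‖ = 1 → θ (I • po (U x) (U x)) = I • po x x ∨
      θ (I • po (U x) (U x)) = -(I • po x x))
    (h3 : ∀ x, ‖x‖ = 1 → φ (po x x) = po (U x) (U x) ∨ φ (po x x) = -po (U x) (U x))
    (h4 : ∀ x, ‖x‖ = 1 → φ (I • po x x) = I • po (U x) (U x) ∨
      φ (I • po x x) = -(I • po (U x) (U x))) : NormE (fun T => θ (φ T)) := by
  refine ⟨⟨?_, ?_⟩, ?_, ?_⟩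
  · intro S
    obtain ⟨A, rfl⟩ := hsurj S
    obtain ⟨T, rfl⟩ := hφ.surj A
    exact ⟨T, rfl⟩
  · intro T S
    rw [hθ, hφ.pres]
  · intro x hx
    rcases h3 x hx with h | h
    · left; rw [h, h1 x hx]
    · right; rw [h, hneg, h1 x hx]
  · intro x hx
    rcases h4 x hx with h | h
    · rw [h]; exact h2 x hx
    · rw [h, hneg]
      rcases h2 x hx with h5 | h5
      · right; rw [h5]
      · left; rw [h5, neg_neg]

theorem po_smul_smul (θ : ℂ) (hθ : ‖θ‖ = 1) (x : K) : po (θ • x) (θ • x) = po x x := by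
  ext z
  rw [po_apply, po_apply, inner_smul_left, smul_smul]
  congr 1
  have : conj θ * θ = 1 := by
    rw [mul_comm, Complex.mul_conj, Complex.normSq_eq_norm_sq, hθ]; simp
  linear_combination (inner ℂ x z) * this

theorem main_e_dim2 (hH : Dim2 H) {φ : (H →L[ℂ] H) → (K →L[ℂ] K)} (hφ : PresE φ) : FormE φ := by
  obtain ⟨π, hπ1, hπ2, hπ3⟩ := e_rays hφ hH
  obtain ⟨hP, hiP, hin⟩ := e_iP hφ hH hπ1 hπ2 hπ3
  rcases e_wigner hH (fun x hx => (hπ1 x hx).1) hπ2 hin with ⟨U, hU⟩ | ⟨U, hU⟩
  · left
    refine ⟨U, fun T => ?_⟩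
    have hpoU : ∀ x, ‖x‖ = 1 → po (π x) (π x) = po (U x) (U x) := by
      intro x hx
      obtain ⟨c, hc, h⟩ := hU x hx
      rw [h, po_smul_smul c hc]
    let θ : (K →L[ℂ] K) → (H →L[ℂ] H) := fun A =>
      (U.symm.toContinuousLinearEquiv : K →L[ℂ] H).comp
        (A.comp (U.toContinuousLinearEquiv : H →L[ℂ] K))
    have hθa : ∀ A x, θ A x = U.symm (A (U x)) := fun A x => rfl
    have hN : NormE (fun T => θ (φ T)) := by
      refine norm_of_theta hφ θ ?_ ?_ ?_ (U := U) ?_ ?_ ?_ ?_
      · intro S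
        refine ⟨(U.toContinuousLinearEquiv : H →L[ℂ] K).comp
          (S.comp (U.symm.toContinuousLinearEquiv : K →L[ℂ] H)), ?_⟩
        ext x
        rw [hθa]
        simp
      · intro A B
        refine pres_of_formE (φ := θ) (Or.inl ⟨U.symm, fun T => ⟨1, Or.inl rfl, Or.inl fun y => ?_⟩⟩) A B
        rw [hθa, one_smul]
        simp
      · intro A
        ext x
        rw [hθa, neg_apply, neg_apply, hθa, map_neg]
      · intro x hx
        ext z
        rw [hθa, po_apply, po_apply, map_smul, U.symm_apply_apply, U.inner_map_map]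
      · intro x hx
        left
        ext z
        rw [hθa, smul_apply, smul_apply, po_apply, po_apply, map_smul, map_smul,
          U.symm_apply_apply, U.inner_map_map]
      · intro x hx
        rw [← hpoU x hx]; exact hP x hx
      · intro x hx
        rw [← hpoU x hx]; exact hiP x hx
    rcases main_e_norm hH hN T with (h | h) | ⟨hs, h | h⟩
    · refine ⟨1, Or.inl rfl, Or.inl fun y => ?_⟩
      have := congrArg (fun L : H →L[ℂ] H => U (L (U.symm y))) h
      simp only [hθa, U.apply_symm_apply] at this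
      rw [this, one_smul]
    · refine ⟨-1, Or.inr rfl, Or.inl fun y => ?_⟩
      have := congrArg (fun L : H →L[ℂ] H => U (L (U.symm y))) h
      simp only [hθa, U.apply_symm_apply, neg_apply, map_neg] at this
      rw [this, neg_one_smul]
    · refine ⟨1, Or.inl rfl, Or.inr ⟨hs, fun y => ?_⟩⟩
      have := congrArg (fun L : H →L[ℂ] H => U (L (U.symm y))) h
      simp only [hθa, U.apply_symm_apply] at this
      rw [this, one_smul]
    · refine ⟨-1, Or.inr rfl, Or.inr ⟨hs, fun y => ?_⟩⟩
      have := congrArg (fun L : H →L[ℂ] H => U (L (U.symm y))) h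
      simp only [hθa, U.apply_symm_apply, neg_apply, map_neg] at this
      rw [this, neg_one_smul]
  · right
    refine ⟨U, fun T => ?_⟩
    have hpoU : ∀ x, ‖x‖ = 1 → po (π x) (π x) = po (U x) (U x) := by
      intro x hx
      obtain ⟨c, hc, h⟩ := hU x hx
      rw [h, po_smul_smul c hc]
    let θ : (K →L[ℂ] K) → (H →L[ℂ] H) := fun A =>
      (U.symm.toContinuousLinearEquiv : K →SL[starRingEnd ℂ] H).comp
        (A.comp (U.toContinuousLinearEquiv : H →SL[starRingEnd ℂ] K))
    have hθa : ∀ A x, θ A x = U.symm (A (U x)) := fun A x => rfl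
    have hin' : ∀ x y : H, inner ℂ (U x) (U y) = conj (inner ℂ x y) := inner_conj_iso U
    have hN : NormE (fun T => θ (φ T)) := by
      refine norm_of_theta hφ θ ?_ ?_ ?_ (U := U) ?_ ?_ ?_ ?_
      · intro S
        refine ⟨(U.toContinuousLinearEquiv : H →SL[starRingEnd ℂ] K).comp
          (S.comp (U.symm.toContinuousLinearEquiv : K →SL[starRingEnd ℂ] H)), ?_⟩
        ext x
        rw [hθa]
        simp
      · intro A B
        refine pres_of_formE (φ := θ) (Or.inr ⟨U.symm, fun T => ⟨1, Or.inl rfl, Or.inl fun y => ?_⟩⟩) A B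
        rw [hθa, one_smul]
        simp
      · intro A
        ext x
        rw [hθa, neg_apply, neg_apply, hθa, map_neg]
      · intro x hx
        ext z
        rw [hθa, po_apply, po_apply, map_smulₛₗ, U.symm_apply_apply, hin', starRingEnd_self_apply]
      · intro x hx
        right
        ext z
        rw [hθa, smul_apply, neg_apply, smul_apply, po_apply, po_apply, map_smulₛₗ, map_smulₛₗ,
          U.symm_apply_apply, hin', starRingEnd_self_apply, conj_I, neg_smul]
      · intro x hx
        rw [← hpoU x hx]; exact hP x hx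
      · intro x hx
        rw [← hpoU x hx]; exact hiP x hx
    rcases main_e_norm hH hN T with (h | h) | ⟨hs, h | h⟩
    · refine ⟨1, Or.inl rfl, Or.inl fun y => ?_⟩
      have := congrArg (fun L : H →L[ℂ] H => U (L (U.symm y))) h
      simp only [hθa, U.apply_symm_apply] at this
      rw [this, one_smul]
    · refine ⟨-1, Or.inr rfl, Or.inl fun y => ?_⟩
      have := congrArg (fun L : H →L[ℂ] H => U (L (U.symm y))) h
      simp only [hθa, U.apply_symm_apply, neg_apply, map_neg] at this
      rw [this, neg_one_smul]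
    · refine ⟨1, Or.inl rfl, Or.inr ⟨hs, fun y => ?_⟩⟩
      have := congrArg (fun L : H →L[ℂ] H => U (L (U.symm y))) h
      simp only [hθa, U.apply_symm_apply] at this
      rw [this, one_smul]
    · refine ⟨-1, Or.inr rfl, Or.inr ⟨hs, fun y => ?_⟩⟩
      have := congrArg (fun L : H →L[ℂ] H => U (L (U.symm y))) h
      simp only [hθa, U.apply_symm_apply, neg_apply, map_neg] at this
      rw [this, neg_one_smul]

theorem exists_iso_one [Nontrivial H] [Nontrivial K] (hH : ¬ Dim2 H) (hK : ¬ Dim2 K) :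
    Nonempty (H ≃ₗᵢ[ℂ] K) := by
  have h1 := finrank_of_not_dim2 hH
  have h2 := finrank_of_not_dim2 hK
  have : FiniteDimensional ℂ H := Module.finite_of_finrank_pos (by rw [h1]; exact one_pos)
  have : FiniteDimensional ℂ K := Module.finite_of_finrank_pos (by rw [h2]; exact one_pos)
  exact ⟨(stdOrthonormalBasis ℂ H).equiv (stdOrthonormalBasis ℂ K) (finCongr (by rw [h1, h2]))⟩

theorem adjoint_smul_one (z : ℂ) :
    adjoint (z • (1 : H →L[ℂ] H)) = conj z • (1 : H →L[ℂ] H) := by
  have h2 : adjoint (1 : H →L[ℂ] H) = 1 := star_one _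
  rw [map_smulₛₗ, h2]

theorem special_smul_one (z : ℂ) : Special (z • (1 : H →L[ℂ] H)) := by
  refine ⟨?_, ?_⟩
  · rw [adjoint_smul_one, smul_mul_smul_comm, smul_mul_smul_comm, mul_comm z]
  · rw [adjoint_smul_one]
    refine ⟨-(2 * z.re), 1, 0, by simp, ?_⟩
    rw [← add_smul, Complex.add_conj, smul_smul, ← add_smul]
    simp

theorem main_e_dim1 [Nontrivial H] [Nontrivial K] (hH : ¬ Dim2 H)
    {φ : (H →L[ℂ] H) → (K →L[ℂ] K)} (hφ : PresE φ) : FormE φ := by
  have hK : ¬ Dim2 K := fun h => hH ((e_dim2 hφ).2 h)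
  obtain ⟨U⟩ := exists_iso_one hH hK
  choose f hf using fun T : K →L[ℂ] K => scalar_of_not_dim2 hK T
  -- the scalar function
  let g : ℂ → ℂ := fun z => f (φ (z • 1))
  have hg : ∀ z : ℂ, φ (z • (1 : H →L[ℂ] H)) = g z • (1 : K →L[ℂ] K) := fun z => hf _
  have hgs : Function.Surjective g := by
    intro w
    obtain ⟨T, hT⟩ := hφ.surj (w • 1)
    obtain ⟨z, rfl⟩ := scalar_of_not_dim2 hH T
    refine ⟨z, ?_⟩
    rw [hg z] at hT
    obtain ⟨v, hv⟩ := exists_ne (0 : K)
    have h2 := congrArg (fun L : K →L[ℂ] K => L v) hT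
    simp only [smul_apply, one_apply_eq_self] at h2
    exact smul_left_injective ℂ hv h2
  have hrel : ∀ z w : ℂ, |(g z).im| * ‖g w‖ = |z.im| * ‖w‖ := by
    intro z w
    have h := hφ.pres (z • 1) (w • 1)
    rw [hg, hg, e_scalar_left, e_scalar_left, sr_scalar, sr_scalar] at h
    linarith
  have him : ∀ z : ℂ, |z.im| * ‖g I‖ = |z.im| * 1 := by
    have h1 : ‖g I‖ = 1 := by
      obtain ⟨w, hw⟩ := hgs I
      have e1 := hrel I I
      have e2 := hrel w w
      have e3 := hrel w I
      have e4 := hrel I w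
      rw [hw] at e2 e3 e4
      simp only [Complex.I_im, abs_one, Complex.norm_I, mul_one, one_mul] at e1 e2 e3 e4
      -- e1: |im g I| * ‖g I‖ = 1, e2: 1 = |im w| ‖w‖, e3: ‖g I‖ = |im w|, e4: |im g I| = ‖w‖
      have k1 : |w.im| ≤ ‖w‖ := Complex.abs_im_le_norm w
      have k2 : |(g I).im| ≤ ‖g I‖ := Complex.abs_im_le_norm _
      have k3 : 0 ≤ |w.im| := abs_nonneg _
      have k4 : 0 ≤ ‖w‖ := norm_nonneg _
      have k5 : ‖g I‖ = ‖w‖ := le_antisymm (by rw [e3]; exact k1) (by rw [← e4]; exact k2)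
      have k6 : ‖w‖ * ‖w‖ = 1 := by
        have k8 : |w.im| = ‖w‖ := e3.symm.trans k5
        rw [k8] at e2
        exact e2.symm
      have k7 : ‖w‖ = 1 := by nlinarith
      rw [k5, k7]
    intro z
    rw [h1]
  have hnorm : ∀ z, ‖g z‖ = ‖z‖ ∧ |(g z).im| = |z.im| := by
    have h1 : ‖g I‖ = 1 := by
      have := him I
      simpa using this
    have h2 : |(g I).im| = 1 := by
      have := hrel I I
      rw [h1] at this
      simpa using this
    intro z
    constructor
    · have := hrel I z
      rw [h2] at this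
      simpa using this
    · have := hrel z I
      rw [h1] at this
      simpa using this
  left
  refine ⟨U, fun T => ?_⟩
  obtain ⟨z, rfl⟩ := scalar_of_not_dim2 hH T
  obtain ⟨hz1, hz2⟩ := hnorm z
  have hre : |(g z).re| = |z.re| := by
    have e1 := Complex.sq_norm (g z)
    have e2 := Complex.sq_norm z
    rw [Complex.normSq_apply] at e1 e2
    rw [hz1] at e1
    have e3 : (g z).im * (g z).im = z.im * z.im := by
      have := congrArg (fun t : ℝ => t * t) hz2
      simpa only [abs_mul_abs_self] using this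
    have e4 : (g z).re * (g z).re = z.re * z.re := by linarith
    exact (abs_eq_abs.2 (mul_self_eq_mul_self_iff.1 e4))
  have hcases : (g z = z ∨ g z = -z) ∨ (g z = conj z ∨ g z = -conj z) := by
    rcases abs_eq_abs.1 hre with h1 | h1 <;> rcases abs_eq_abs.1 hz2 with h2 | h2
    · left; left; exact Complex.ext h1 h2
    · right; left; exact Complex.ext (by simpa using h1) (by simpa using h2)
    · right; right; exact Complex.ext (by simpa using h1) (by simpa using h2)
    · left; right; exact Complex.ext (by simpa using h1) (by simpa using h2)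
  rcases hcases with (h | h) | (h | h)
  · refine ⟨1, Or.inl rfl, Or.inl fun y => ?_⟩
    rw [hg, h]
    simp
  · refine ⟨-1, Or.inr rfl, Or.inl fun y => ?_⟩
    rw [hg, h]
    simp
  · refine ⟨1, Or.inl rfl, Or.inr ⟨special_smul_one z, fun y => ?_⟩⟩
    rw [hg, h, adjoint_smul_one]
    simp
  · refine ⟨-1, Or.inr rfl, Or.inr ⟨special_smul_one z, fun y => ?_⟩⟩
    rw [hg, h, adjoint_smul_one]
    simp

theorem main_e [Nontrivial H] [Nontrivial K] {φ : (H →L[ℂ] H) → (K →L[ℂ] K)} (hφ : PresE φ) :
    FormE φ := by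
  by_cases hH : Dim2 H
  · exact main_e_dim2 hH hφ
  · exact main_e_dim1 hH hφ

end

end PR
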